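import Pool.Agent.H3.PK.Targets

/-!
# MP_7886dd_an: module HK1
-/

set_option autoImplicit false

open MeasureTheory Metric Set
open scoped ComplexConjugate

namespace Pool.Agent.H3.PK

/-- derivative of a polynomial along a complex line -/
lemma hk1_hasDerivAt_ev_line {n : ℕ} (p : MvPolynomial (Fin n) ℂ) (z w : E n) (l : ℂ) :
    HasDerivAt (fun l : ℂ => ev p (z + l • w))
      (∑ j, ev (MvPolynomial.pderiv j p) (z + l • w) * w j) l := by
  induction p using MvPolynomial.induction_on with
  | C a =>
    have h1 : (∑ j, ev (MvPolynomial.pderiv j (MvPolynomial.C a)) (z + l • w) * w j) = 0 := by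
      refine Finset.sum_eq_zero fun j _ => ?_
      rw [MvPolynomial.pderiv_C]
      simp [ev]
    rw [h1]
    simp only [ev_C]
    exact hasDerivAt_const l a
  | add p q hp hq =>
    have h1 : (∑ j, ev (MvPolynomial.pderiv j (p + q)) (z + l • w) * w j) =
        (∑ j, ev (MvPolynomial.pderiv j p) (z + l • w) * w j) +
        ∑ j, ev (MvPolynomial.pderiv j q) (z + l • w) * w j := by
      rw [← Finset.sum_add_distrib]
      refine Finset.sum_congr rfl fun j _ => ?_
      rw [map_add, ev_add, add_mul]
    rw [h1]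
    simp only [ev_add]
    exact hp.add hq
  | mul_X p i hp =>
    have h1 : (∑ j, ev (MvPolynomial.pderiv j (p * MvPolynomial.X i)) (z + l • w) * w j) =
        (∑ j, ev (MvPolynomial.pderiv j p) (z + l • w) * w j) * (z + l • w) i +
        ev p (z + l • w) * w i := by
      rw [Finset.sum_mul]
      have h2 : ∀ j, ev (MvPolynomial.pderiv j (p * MvPolynomial.X i)) (z + l • w) * w j =
          ev (MvPolynomial.pderiv j p) (z + l • w) * w j * (z + l • w) i +
          (if j = i then ev p (z + l • w) * w i else 0) := by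
        intro j
        rw [MvPolynomial.pderiv_mul, ev_add, ev_mul, ev_mul, ev_X]
        by_cases hji : j = i
        · subst hji
          rw [MvPolynomial.pderiv_X_self]
          simp only [if_true]
          simp [ev]
          ring
        · rw [MvPolynomial.pderiv_X_of_ne (fun h => hji h.symm)]
          simp only [hji, if_false]
          simp [ev]
          ring
      rw [Finset.sum_congr rfl fun j _ => h2 j, Finset.sum_add_distrib]
      simp
    rw [h1]
    simp only [ev_mul, ev_X]
    have h3 : HasDerivAt (fun l : ℂ => (z + l • w) i) (w i) l := by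
      have : (fun l : ℂ => (z + l • w) i) = fun l : ℂ => z i + l * w i := by
        funext l; simp
      rw [this]
      simpa using ((hasDerivAt_id l).mul_const (w i)).const_add (z i)
    exact hp.mul h3

lemma hk1_euler_ev {n N : ℕ} {p : MvPolynomial (Fin n) ℂ} (hp : p.IsHomogeneous N) (z : E n) :
    ∑ j, z j * ev (MvPolynomial.pderiv j p) z = N * ev p z := by
  have h := congrArg (fun q => ev q z) hp.sum_X_mul_pderiv
  rw [ev_sum] at h
  have h2 : ev (N • p) z = N * ev p z := by
    simp [ev]
  rw [h2] at h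
  rw [← h]
  refine Finset.sum_congr rfl fun j _ => ?_
  rw [ev_mul, ev_X]

lemma hk1_one_add_inv_pow_le (N : ℕ) (hN : 1 ≤ N) : (1 + 1 / (N : ℝ)) ^ N ≤ 4 := by
  have hNpos : (0 : ℝ) < N := by exact_mod_cast hN
  have h1 : (1 + 1 / (N : ℝ)) ≤ Real.exp (1 / N) := by
    have := Real.add_one_le_exp (1 / (N : ℝ))
    linarith
  have h2 : (1 + 1 / (N : ℝ)) ^ N ≤ Real.exp (1 / N) ^ N :=
    pow_le_pow_left₀ (by positivity) h1 N
  rw [← Real.exp_nat_mul] at h2
  have h3 : (N : ℝ) * (1 / N) = 1 := by field_simp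
  rw [h3] at h2
  have := Real.exp_one_lt_d9
  linarith

theorem hk1 : T_HK1 := by
  intro n N p hN hp z j
  have hNpos : (0 : ℝ) < N := by exact_mod_cast hN
  have hsq : 0 < √(N : ℝ) := Real.sqrt_pos.2 hNpos
  set D : Fin n → ℂ := fun j =>
    ev (MvPolynomial.pderiv j p) z - N * ev p z * conj ((z : E n) j) with hD
  set Dv : E n := WithLp.toLp 2 D with hDv
  have hz : ‖(z : E n)‖ = 1 := mem_sphere_zero_iff_norm.1 z.2
  have hzz : ∑ j, (z : E n) j * conj ((z : E n) j) = 1 := by
    have h := sum_norm_sq z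
    have h2 : ((∑ j, ‖(z : E n) j‖ ^ 2 : ℝ) : ℂ) = 1 := by rw [h]; simp
    rw [← h2]
    push_cast
    refine Finset.sum_congr rfl fun j _ => ?_
    rw [Complex.mul_conj, Complex.normSq_eq_norm_sq]
    push_cast
    rfl
  have hE : ∑ j, (z : E n) j * D j = 0 := by
    have h1 : ∑ j, (z : E n) j * D j =
        ∑ j, (z : E n) j * ev (MvPolynomial.pderiv j p) z -
          N * ev p z * ∑ j, (z : E n) j * conj ((z : E n) j) := by
      rw [Finset.mul_sum, ← Finset.sum_sub_distrib]
      refine Finset.sum_congr rfl fun j _ => ?_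
      simp only [hD]
      ring
    rw [h1, hk1_euler_ev hp.1, hzz]
    ring
  have hmain : ‖Dv‖ ≤ 2 * √(N : ℝ) := by
    rcases eq_or_ne Dv 0 with h0 | h0
    · rw [h0, norm_zero]
      positivity
    have hDn : 0 < ‖Dv‖ := norm_pos_iff.2 h0
    set w : E n := WithLp.toLp 2 fun j => conj (D j) / ‖Dv‖ with hw
    have hwj : ∀ j, w j = conj (D j) / ‖Dv‖ := fun j => rfl
    have hDs : ∑ j, ‖D j‖ ^ 2 = ‖Dv‖ ^ 2 := by
      rw [EuclideanSpace.norm_sq_eq]
    have hDs' : ∑ j, D j * conj (D j) = (‖Dv‖ : ℂ) ^ 2 := by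
      have : ((∑ j, ‖D j‖ ^ 2 : ℝ) : ℂ) = ((‖Dv‖ ^ 2 : ℝ) : ℂ) := by rw [hDs]
      push_cast at this
      rw [← this]
      refine Finset.sum_congr rfl fun j _ => ?_
      rw [Complex.mul_conj, Complex.normSq_eq_norm_sq]
      push_cast
      rfl
    have hwn : ‖w‖ = 1 := by
      have h1 : ‖w‖ ^ 2 = 1 := by
        rw [EuclideanSpace.norm_sq_eq]
        have h2 : ∀ j, ‖w j‖ ^ 2 = ‖D j‖ ^ 2 / ‖Dv‖ ^ 2 := by
          intro j
          rw [hwj, norm_div, Complex.norm_real, norm_norm, RCLike.norm_conj, div_pow]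
        rw [Finset.sum_congr rfl fun j _ => h2 j, ← Finset.sum_div, hDs]
        field_simp
      have h3 : 0 ≤ ‖w‖ := norm_nonneg _
      nlinarith
    have hin : ∑ j, (z : E n) j * conj (w j) = 0 := by
      have h1 : ∀ j, (z : E n) j * conj (w j) = ((z : E n) j * D j) / ‖Dv‖ := by
        intro j
        rw [hwj, map_div₀, Complex.conj_conj, Complex.conj_ofReal]
        ring
      rw [Finset.sum_congr rfl fun j _ => h1 j, ← Finset.sum_div, hE, zero_div]
    have hinner : inner ℂ (z : E n) w = 0 := by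
      rw [PiLp.inner_apply]
      have h1 : conj (∑ j, (z : E n) j * conj (w j)) = 0 := by rw [hin, map_zero]
      rw [map_sum] at h1
      rw [← h1]
      refine Finset.sum_congr rfl fun j _ => ?_
      rw [map_mul, Complex.conj_conj, RCLike.inner_apply]
      ring
    have hpyth : ∀ l : ℂ, ‖(z : E n) + l • w‖ ^ 2 = 1 + ‖l‖ ^ 2 := by
      intro l
      have h1 : inner ℂ (z : E n) (l • w) = 0 := by rw [inner_smul_right, hinner, mul_zero]
      have h2 := norm_add_sq_eq_norm_sq_add_norm_sq_of_inner_eq_zero (z : E n) (l • w) h1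
      rw [norm_smul, hwn, hz] at h2
      nlinarith
    have hg := hk1_hasDerivAt_ev_line p (z : E n) w 0
    have hval : ∑ j, ev (MvPolynomial.pderiv j p) ((z : E n) + (0 : ℂ) • w) * w j = ‖Dv‖ := by
      rw [zero_smul, add_zero]
      have h1 : ∀ j, ev (MvPolynomial.pderiv j p) (z : E n) * w j =
          D j * conj (D j) / ‖Dv‖ + N * ev p z * conj ((z : E n) j * conj (w j)) := by
        intro j
        have h2 : ev (MvPolynomial.pderiv j p) (z : E n) = D j + N * ev p z * conj ((z : E n) j) := by
          simp only [hD]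
          ring
        rw [h2, map_mul, Complex.conj_conj, hwj]
        ring
      rw [Finset.sum_congr rfl fun j _ => h1 j, Finset.sum_add_distrib, ← Finset.sum_div, hDs',
        ← Finset.mul_sum, ← map_sum, hin, map_zero, mul_zero, add_zero]
      have : (‖Dv‖ : ℂ) ≠ 0 := by exact_mod_cast hDn.ne'
      field_simp
    rw [hval] at hg
    have hr : 0 < 1 / √(N : ℝ) := by positivity
    have hC := Complex.norm_deriv_le_of_forall_mem_sphere_norm_le (c := 0) (R := 1 / √(N : ℝ))
      (C := 2) (f := fun l : ℂ => ev p ((z : E n) + l • w)) hr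
      (by
        apply Differentiable.diffContOnCl
        intro l
        exact (hk1_hasDerivAt_ev_line p (z : E n) w l).differentiableAt)
      (by
        intro l hl
        rw [mem_sphere_zero_iff_norm] at hl
        refine (hp.le hN _).trans ?_
        have h1 : (‖(z : E n) + l • w‖ ^ N) ^ 2 ≤ 2 ^ 2 := by
          rw [← pow_mul, mul_comm, pow_mul, hpyth l, hl, div_pow, one_pow, Real.sq_sqrt hNpos.le]
          have := hk1_one_add_inv_pow_le N hN
          norm_num
          norm_num at this
          exact this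
        exact le_of_sq_le_sq h1 (by norm_num))
    rw [hg.deriv] at hC
    rw [Complex.norm_real, norm_norm] at hC
    have h5 : 2 / (1 / √(N : ℝ)) = 2 * √(N : ℝ) := by field_simp
    rw [h5] at hC
    exact hC
  have hj : ‖D j‖ ≤ 2 * √(N : ℝ) := (PiLp.norm_apply_le Dv j).trans hmain
  have hNc : (N : ℂ) ≠ 0 := by exact_mod_cast hNpos.ne'
  have hfin : ev (MvPolynomial.pderiv j p) z / N - conj ((z : E n) j) * ev p z = D j / N := by
    simp only [hD]
    field_simp
  rw [hfin, norm_div, Complex.norm_natCast, div_le_div_iff₀ hNpos hsq]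
  have h6 : √(N : ℝ) * √(N : ℝ) = N := Real.mul_self_sqrt hNpos.le
  nlinarith [mul_le_mul_of_nonneg_right hj hsq.le]

end Pool.Agent.H3.PK
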