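import Pool.Agent.H3.PK.Targets

/-!
# MP_7886dd_an: module HK2
-/

set_option autoImplicit false

open MeasureTheory Metric Set
open scoped ComplexConjugate

namespace Pool.Agent.H3.PK

lemma hk2_const {n N : ℕ} {p : MvPolynomial (Fin n) ℂ} (hp : p.IsHomogeneous N) (hN : 1 ≤ N) :
    MvPolynomial.constantCoeff p = 0 := by
  rw [MvPolynomial.constantCoeff_eq]
  refine hp.coeff_eq_zero ?_
  simp
  omega

lemma hk2_aux (h : T_HK1) (n : ℕ) (G : MvPolynomial (Fin n) ℂ) : ∀ ε : ℝ, 0 < ε →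
    ∃ N₀ : ℕ, ∀ N : ℕ, N₀ ≤ N → ∀ p : MvPolynomial (Fin n) ℂ, Ball1 N p →
    ∃ f : MvPolynomial (Fin n) ℂ, MvPolynomial.constantCoeff f = 0 ∧
    ∀ z : S n, ‖ev f z - conj (ev G z) * ev p z‖ ≤ ε := by
  induction G using MvPolynomial.induction_on with
  | C a =>
    intro ε hε
    refine ⟨1, fun N hN p hp => ⟨MvPolynomial.C (conj a) * p, ?_, fun z => ?_⟩⟩
    · rw [map_mul, hk2_const hp.1 hN, mul_zero]
    · rw [ev_mul, ev_C, ev_C, sub_self, norm_zero]
      exact hε.le
  | add G H hG hH =>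
    intro ε hε
    obtain ⟨N₁, h1⟩ := hG (ε / 2) (by linarith)
    obtain ⟨N₂, h2⟩ := hH (ε / 2) (by linarith)
    refine ⟨max N₁ N₂, fun N hN p hp => ?_⟩
    obtain ⟨f, hf0, hf⟩ := h1 N ((le_max_left _ _).trans hN) p hp
    obtain ⟨g, hg0, hg⟩ := h2 N ((le_max_right _ _).trans hN) p hp
    refine ⟨f + g, by rw [map_add, hf0, hg0, add_zero], fun z => ?_⟩
    have h3 : ev (f + g) z - conj (ev (G + H) z) * ev p z =
        (ev f z - conj (ev G z) * ev p z) + (ev g z - conj (ev H z) * ev p z) := by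
      rw [ev_add, ev_add, map_add]
      ring
    rw [h3]
    refine (norm_add_le _ _).trans ?_
    have := hf z
    have := hg z
    linarith
  | mul_X G j hG =>
    intro ε hε
    obtain ⟨N₁, h1⟩ := hG (ε / 6) (by linarith)
    set g : C(S n, ℂ) := ⟨fun z => ev G z, continuous_evS G⟩ with hg
    have hM : ∀ z : S n, ‖ev G z‖ ≤ ‖g‖ := fun z => g.norm_coe_le_norm z
    have hM0 : 0 ≤ ‖g‖ := norm_nonneg _
    obtain ⟨N₂, hN₂⟩ := exists_nat_ge ((4 * ‖g‖ / ε) ^ 2)
    refine ⟨N₁ + N₂ + 1, fun N hN p hp => ?_⟩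
    have hN1 : 1 ≤ N := by omega
    have hNpos : (0 : ℝ) < N := by exact_mod_cast hN1
    have hNone : (1 : ℝ) ≤ N := by exact_mod_cast hN1
    have hsq : 0 < √(N : ℝ) := Real.sqrt_pos.2 hNpos
    have hsq1 : 1 ≤ √(N : ℝ) := by
      rw [show (1 : ℝ) = √1 from Real.sqrt_one.symm]
      exact Real.sqrt_le_sqrt hNone
    have hbig : 4 * ‖g‖ / ε ≤ √(N : ℝ) := by
      apply Real.le_sqrt_of_sq_le
      refine hN₂.trans ?_
      exact_mod_cast (by omega : N₂ ≤ N)
    set t : ℝ := 1 + 2 / √(N : ℝ) with ht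
    have ht0 : 0 < t := by positivity
    have ht3 : t ≤ 3 := by
      have : 2 / √(N : ℝ) ≤ 2 := by
        rw [div_le_iff₀ hsq]
        nlinarith
      linarith
    have hNc : (N : ℂ) ≠ 0 := by exact_mod_cast hNpos.ne'
    have htc : (t : ℂ) ≠ 0 := by exact_mod_cast ht0.ne'
    set q : MvPolynomial (Fin n) ℂ := MvPolynomial.C (((N : ℂ) * t)⁻¹) * MvPolynomial.pderiv j p
      with hq
    have hqz : ∀ z : S n, (t : ℂ) * ev q z = ev (MvPolynomial.pderiv j p) z / N := by
      intro z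
      rw [hq, ev_mul, ev_C]
      field_simp
    have hB : Ball1 (N - 1) q := by
      refine ⟨?_, fun z => ?_⟩
      · rw [hq]
        exact hp.1.pderiv.C_mul _
      · have h3 := h n N p hN1 hp z j
        have h4 : ‖(t : ℂ) * ev q z‖ ≤ t := by
          rw [hqz z]
          have h5 : ev (MvPolynomial.pderiv j p) z / N =
              (ev (MvPolynomial.pderiv j p) z / N - conj ((z : E n) j) * ev p z) +
              conj ((z : E n) j) * ev p z := by ring
          rw [h5]
          refine (norm_add_le _ _).trans ?_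
          have h6 : ‖conj ((z : E n) j) * ev p z‖ ≤ 1 := by
            rw [norm_mul, RCLike.norm_conj]
            exact mul_le_one₀ (norm_coord_le z j) (norm_nonneg _) (hp.2 z)
          rw [ht]
          linarith
        rw [norm_mul, Complex.norm_real, Real.norm_eq_abs, abs_of_pos ht0] at h4
        by_contra hcon
        push Not at hcon
        nlinarith
    obtain ⟨f, hf0, hf⟩ := h1 (N - 1) (by omega) q hB
    refine ⟨MvPolynomial.C (t : ℂ) * f, by rw [map_mul, hf0, mul_zero], fun z => ?_⟩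
    have h7 : ev (MvPolynomial.C (t : ℂ) * f) z -
        conj (ev (G * MvPolynomial.X j) z) * ev p z =
        (t : ℂ) * (ev f z - conj (ev G z) * ev q z) +
        conj (ev G z) * (ev (MvPolynomial.pderiv j p) z / N - conj ((z : E n) j) * ev p z) := by
      rw [← hqz z, ev_mul, ev_mul, ev_C, ev_X, map_mul]
      ring
    rw [h7]
    refine (norm_add_le _ _).trans ?_
    rw [norm_mul, norm_mul, Complex.norm_real, Real.norm_eq_abs, abs_of_pos ht0, RCLike.norm_conj]
    have h8 := hf z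
    have h9 := h n N p hN1 hp z j
    have h10 : t * ‖ev f z - conj (ev G z) * ev q z‖ ≤ 3 * (ε / 6) :=
      mul_le_mul ht3 h8 (norm_nonneg _) (by norm_num)
    have h11 : ‖ev G z‖ * ‖ev (MvPolynomial.pderiv j p) z / N - conj ((z : E n) j) * ev p z‖ ≤
        ‖g‖ * (2 / √(N : ℝ)) := mul_le_mul (hM z) h9 (norm_nonneg _) hM0
    have h12 : ‖g‖ * (2 / √(N : ℝ)) ≤ ε / 2 := by
      rw [div_le_iff₀ hε] at hbig
      rw [mul_div_assoc', div_le_iff₀ hsq]
      nlinarith
    linarith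

theorem hk2 (h : T_HK1) : T_HK2 := by
  intro n F ε hε
  obtain ⟨N₁, h1⟩ := hk2_aux h n F ε hε
  refine ⟨max N₁ 1, fun N hN p hp => ?_⟩
  obtain ⟨f, hf0, hf⟩ := h1 N ((le_max_left _ _).trans hN) p hp
  have hN1 : 1 ≤ N := (le_max_right _ _).trans hN
  refine ⟨MvPolynomial.C (1 / 2) * (F * p) + MvPolynomial.C (1 / 2) * f, ?_, fun z => ?_⟩
  · rw [map_add, map_mul, map_mul, map_mul, hk2_const hp.1 hN1, hf0]
    simp
  · have h2 : ev (MvPolynomial.C (1 / 2) * (F * p) + MvPolynomial.C (1 / 2) * f) z -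
        ((ev F z).re : ℂ) * ev p z = (1 / 2) * (ev f z - conj (ev F z) * ev p z) := by
      rw [ev_add, ev_mul, ev_mul, ev_mul, ev_C, Complex.re_eq_add_conj]
      ring
    rw [h2, norm_mul]
    have h3 := hf z
    have h4 : ‖(1 / 2 : ℂ)‖ = 1 / 2 := by norm_num
    rw [h4]
    have := norm_nonneg (ev f z - conj (ev F z) * ev p z)
    linarith

end Pool.Agent.H3.PK
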