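import Pool.Agent.H3.PK.Targets

/-!
# MP_7886dd_an: module IT
-/

set_option autoImplicit false

open MeasureTheory Metric Set
open scoped ComplexConjugate

namespace Pool.Agent.H3.PK

lemma it_iter {n : ℕ} {κ : ℝ} (hκ0 : 0 < κ) (hκ1 : κ ≤ 1) (σ : Measure (S n))
    (h : ∀ (m : ℕ) (F : Fin m → MvPolynomial (Fin n) ℂ) (A : Set (S n)), MeasurableSet A →
      ∀ ε : ℝ, 0 < ε → ∃ G : Fin m → MvPolynomial (Fin n) ℂ,
      (∀ j, MvPolynomial.constantCoeff (G j) = MvPolynomial.constantCoeff (F j)) ∧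
      (∀ j, nm σ univ (G j) ≤ nm σ univ (F j) + ε) ∧
      (∀ j, nm σ A (G j) ≤ nm σ A (F j) + ε) ∧
      ∑ j, hf σ (G j) ≤ (1 - κ) * ∑ j, hf σ (F j) + ε)
    (m : ℕ) (F : Fin m → MvPolynomial (Fin n) ℂ) (A : Set (S n)) (hA : MeasurableSet A)
    (ε : ℝ) (hε : 0 < ε) (k : ℕ) : ∃ G : Fin m → MvPolynomial (Fin n) ℂ,
      (∀ j, MvPolynomial.constantCoeff (G j) = MvPolynomial.constantCoeff (F j)) ∧
      (∀ j, nm σ univ (G j) ≤ nm σ univ (F j) + k * ε) ∧
      (∀ j, nm σ A (G j) ≤ nm σ A (F j) + k * ε) ∧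
      ∑ j, hf σ (G j) ≤ (1 - κ) ^ k * ∑ j, hf σ (F j) + k * ε := by
  induction k with
  | zero => exact ⟨F, fun j => rfl, fun j => by simp, fun j => by simp, by simp⟩
  | succ k ih =>
    obtain ⟨G, h1, h2, h3, h4⟩ := ih
    obtain ⟨H, g1, g2, g3, g4⟩ := h m G A hA ε hε
    refine ⟨H, fun j => (g1 j).trans (h1 j), fun j => ?_, fun j => ?_, ?_⟩
    · have := g2 j
      have := h2 j
      push_cast
      linarith
    · have := g3 j
      have := h3 j
      push_cast
      linarith
    · have h5 : (1 - κ) * ∑ j, hf σ (G j) ≤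
          (1 - κ) * ((1 - κ) ^ k * ∑ j, hf σ (F j) + k * ε) :=
        mul_le_mul_of_nonneg_left h4 (by linarith)
      have h6 : 0 ≤ κ * (k * ε) := by positivity
      rw [pow_succ]
      push_cast
      nlinarith

theorem it (h : T_ST) : T_IT := by
  intro n hn σ hσ m F A hA ε hε
  obtain ⟨κ, hκ0, hκ1, hst⟩ := h n hn
  have hprob := hσ.prob
  set a : ℝ := ∑ j, hf σ (F j) with ha
  have hf0 : ∀ F : MvPolynomial (Fin n) ℂ, 0 ≤ hf σ F := fun F =>
    integral_nonneg fun z => Real.sqrt_nonneg _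
  have ha0 : 0 ≤ a := Finset.sum_nonneg fun j _ => hf0 _
  obtain ⟨K, hK⟩ := exists_pow_lt_of_lt_one (x := ε / (2 * (a + 1))) (y := 1 - κ) (by positivity)
    (by linarith)
  have hK2 : (1 - κ) ^ K * a ≤ ε / 2 := by
    have h1 : (1 - κ) ^ K * (a + 1) ≤ ε / 2 := by
      have h2 := mul_le_mul_of_nonneg_right hK.le (by linarith : 0 ≤ a + 1)
      have h3 : ε / (2 * (a + 1)) * (a + 1) = ε / 2 := by field_simp
      linarith
    have h4 : 0 ≤ (1 - κ) ^ K := pow_nonneg (by linarith) K
    nlinarith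
  obtain ⟨G, h1, h2, h3, h4⟩ := it_iter hκ0 hκ1 σ (hst σ hσ) m F A hA (ε / (2 * (K + 1)))
    (by positivity) K
  have hKε : (K : ℝ) * (ε / (2 * (K + 1))) ≤ ε / 2 := by
    have : (K : ℝ) * (ε / (2 * (K + 1))) = (K / (K + 1)) * (ε / 2) := by field_simp
    rw [this]
    have h5 : (K : ℝ) / (K + 1) ≤ 1 := by
      rw [div_le_one (by positivity)]
      linarith
    nlinarith
  have hsum : ∑ j, hf σ (G j) ≤ ε := by linarith
  set Z : Set (S n) := {z | ∃ j, 1 ≤ |(ev (G j) z).re|} with hZ
  have hcont : ∀ j, Continuous fun z : S n => |(ev (G j) z).re| := fun j =>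
    (Complex.continuous_re.comp (continuous_evS (G j))).abs
  have hZc : IsClosed Z := by
    have : Z = ⋃ j, {z : S n | 1 ≤ |(ev (G j) z).re|} := by
      ext z; simp [hZ]
    rw [this]
    exact isClosed_iUnion_of_finite fun j => isClosed_le continuous_const (hcont j)
  have hZm : MeasurableSet Z := hZc.measurableSet
  have hint : ∀ j, Integrable (fun z : S n => √|(ev (G j) z).re|) σ := fun j =>
    integrable_cont σ (hcont j).sqrt
  refine ⟨G, h1, fun j => ?_, fun j => ?_, ?_, fun j => ?_⟩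
  · have := h2 j
    linarith
  · have := h3 j
    linarith
  · refine le_trans ?_ hsum
    have h5 : ∑ j, hf σ (G j) = ∫ z, ∑ j, √|(ev (G j) z).re| ∂σ := by
      rw [integral_finsetSum _ fun j _ => hint j]
      rfl
    rw [h5, ← integral_indicator_one hZm]
    refine integral_mono ?_ (integrable_finsetSum _ fun j _ => hint j) ?_
    · exact (integrable_const (1 : ℝ)).indicator hZm
    · intro z
      show Z.indicator (fun _ => (1 : ℝ)) z ≤ ∑ j, √|(ev (G j) z).re|
      by_cases hz : z ∈ Z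
      · rw [indicator_of_mem hz]
        obtain ⟨j, hj⟩ := hz
        have h6 : 1 ≤ √|(ev (G j) z).re| := by
          rw [show (1 : ℝ) = √1 from Real.sqrt_one.symm]
          exact Real.sqrt_le_sqrt hj
        exact h6.trans (Finset.single_le_sum (f := fun j => √|(ev (G j) z).re|)
          (fun j _ => Real.sqrt_nonneg _) (Finset.mem_univ j))
      · rw [indicator_of_notMem hz]
        exact Finset.sum_nonneg fun j _ => Real.sqrt_nonneg _
  · have h5 : nm σ Zᶜ (G j) ≤ hf σ (G j) := by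
      have h6 : nm σ Zᶜ (G j) ≤ ∫ z in Zᶜ, √|(ev (G j) z).re| ∂σ := by
        refine setIntegral_mono_on (integrable_cont σ (hcont j)).integrableOn
          (hint j).integrableOn hZm.compl ?_
        intro z hz
        have h7 : |(ev (G j) z).re| ≤ 1 := by
          by_contra hcon
          push Not at hcon
          exact hz ⟨j, hcon.le⟩
        have h8 : 0 ≤ |(ev (G j) z).re| := abs_nonneg _
        apply Real.le_sqrt_of_sq_le
        nlinarith
      refine h6.trans ?_
      exact setIntegral_le_integral (hint j) (Filter.Eventually.of_forall fun z => Real.sqrt_nonneg _)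
    refine h5.trans (le_trans ?_ hsum)
    exact Finset.single_le_sum (f := fun j => hf σ (G j)) (fun j _ => hf0 _) (Finset.mem_univ j)

end Pool.Agent.H3.PK
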