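import Pool.Agent.H3.PK.Targets

/-!
# MP_7886dd_an: modules ORT and ORC
-/

set_option autoImplicit false

open MeasureTheory Metric Set
open scoped ComplexConjugate

namespace Pool.Agent.H3.PK

/-- the weights of the linear functional -/
noncomputable def ortW {n : ℕ} (d : Fin n → ℕ) (m : (Fin n ⊕ Fin n) →₀ ℕ) : ℂ :=
  if (fun i => m (Sum.inl i) + d i) = (fun i => m (Sum.inr i)) then
    ∏ i, ((m (Sum.inr i)).factorial : ℂ) else 0

/-- the linear functional -/
noncomputable def ortL {n : ℕ} (d : Fin n → ℕ) : MvPolynomial (Fin n ⊕ Fin n) ℂ →ₗ[ℂ] ℂ :=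
  (MvPolynomial.basisMonomials (Fin n ⊕ Fin n) ℂ).constr ℂ (ortW d)

lemma ortL_monomial {n : ℕ} (d : Fin n → ℕ) (m : (Fin n ⊕ Fin n) →₀ ℕ) (c : ℂ) :
    ortL d (MvPolynomial.monomial m c) = c * ortW d m := by
  have h1 : MvPolynomial.monomial m c = c • MvPolynomial.basisMonomials (Fin n ⊕ Fin n) ℂ m := by
    rw [MvPolynomial.coe_basisMonomials, MvPolynomial.smul_monomial, smul_eq_mul, mul_one]
  rw [h1, map_smul, ortL, Module.Basis.constr_basis, smul_eq_mul]

lemma ort_prod {n : ℕ} (f g : Fin n → ℕ) (i : Fin n) (hi : 1 ≤ f i)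
    (hg : ∀ j, g j = if j = i then f j - 1 else f j) :
    (f i : ℂ) * ∏ j, ((g j).factorial : ℂ) = ∏ j, ((f j).factorial : ℂ) := by
  rw [← Finset.mul_prod_erase _ _ (Finset.mem_univ i), ← Finset.mul_prod_erase _ _ (Finset.mem_univ i),
    ← mul_assoc]
  congr 1
  · rw [hg i, if_pos rfl]
    have := Nat.mul_factorial_pred (n := f i) (by omega)
    exact_mod_cast this
  · refine Finset.prod_congr rfl fun j hj => ?_
    rw [hg j, if_neg (Finset.ne_of_mem_erase hj)]

lemma ortL_lap {n : ℕ} (d : Fin n → ℕ) (m : (Fin n ⊕ Fin n) →₀ ℕ) (c : ℂ) (i : Fin n) :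
    ortL d (MvPolynomial.pderiv (Sum.inl i) (MvPolynomial.pderiv (Sum.inr i)
      (MvPolynomial.monomial m c))) = (m (Sum.inl i) : ℂ) * ortL d (MvPolynomial.monomial m c) := by
  rw [MvPolynomial.pderiv_monomial, MvPolynomial.pderiv_monomial, ortL_monomial, ortL_monomial]
  have h0 : (m - Finsupp.single (Sum.inr i) 1 : (Fin n ⊕ Fin n) →₀ ℕ) (Sum.inl i) =
      m (Sum.inl i) := by
    simp
  rw [h0]
  set m' : (Fin n ⊕ Fin n) →₀ ℕ := m - Finsupp.single (Sum.inr i) 1 - Finsupp.single (Sum.inl i) 1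
    with hm'
  have hl : ∀ j, m' (Sum.inl j) = if j = i then m (Sum.inl j) - 1 else m (Sum.inl j) := by
    intro j
    rw [hm']
    by_cases hj : j = i
    · subst hj
      simp
    · simp [hj]
  have hr : ∀ j, m' (Sum.inr j) = if j = i then m (Sum.inr j) - 1 else m (Sum.inr j) := by
    intro j
    rw [hm']
    by_cases hj : j = i
    · subst hj
      simp
    · simp [hj]
  rcases Nat.eq_zero_or_pos (m (Sum.inl i)) with h1 | h1
  · rw [h1]
    simp
  rcases Nat.eq_zero_or_pos (m (Sum.inr i)) with h2 | h2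
  · have h3 : ortW d m = 0 := by
      rw [ortW, if_neg]
      intro h
      have := congrFun h i
      omega
    rw [h2, h3]
    simp
  by_cases hc : (fun j => m (Sum.inl j) + d j) = (fun j => m (Sum.inr j))
  · have hc' : (fun j => m' (Sum.inl j) + d j) = (fun j => m' (Sum.inr j)) := by
      funext j
      have := congrFun hc j
      rw [hl, hr]
      by_cases hj : j = i
      · subst hj
        simp only [if_true]
        omega
      · simp only [hj, if_false]
        exact this
    rw [ortW, if_pos hc', ortW, if_pos hc,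
      ← ort_prod (fun j => m (Sum.inr j)) (fun j => m' (Sum.inr j)) i h2 hr]
    ring
  · have hc' : ¬ (fun j => m' (Sum.inl j) + d j) = (fun j => m' (Sum.inr j)) := by
      intro h
      apply hc
      funext j
      have := congrFun h j
      rw [hl, hr] at this
      by_cases hj : j = i
      · subst hj
        simp only [if_true] at this
        omega
      · simp only [hj, if_false] at this
        exact this
    rw [ortW, if_neg hc', ortW, if_neg hc]
    ring

lemma ortL_eq_zero {n a b : ℕ} (ha : 1 ≤ a) {P : MvPolynomial (Fin n ⊕ Fin n) ℂ}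
    (hP : BiHom P a b) (hH : Harm P) (d : Fin n → ℕ) : ortL d P = 0 := by
  have h1 : ortL d (∑ i, MvPolynomial.pderiv (Sum.inl i) (MvPolynomial.pderiv (Sum.inr i) P)) = 0 := by
    rw [show (∑ i, MvPolynomial.pderiv (Sum.inl i) (MvPolynomial.pderiv (Sum.inr i) P)) = 0 from hH,
      map_zero]
  have h2 : ortL d (∑ i, MvPolynomial.pderiv (Sum.inl i) (MvPolynomial.pderiv (Sum.inr i) P)) =
      (a : ℂ) * ortL d P := by
    have h3 : P = ∑ m ∈ P.support, MvPolynomial.monomial m (P.coeff m) :=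
      (MvPolynomial.support_sum_monomial_coeff P).symm
    have h4 : ortL d P = ∑ m ∈ P.support, ortL d (MvPolynomial.monomial m (P.coeff m)) := by
      conv_lhs => rw [h3]
      rw [map_sum]
    have h5 : ∀ i, ortL d (MvPolynomial.pderiv (Sum.inl i) (MvPolynomial.pderiv (Sum.inr i) P)) =
        ∑ m ∈ P.support, (m (Sum.inl i) : ℂ) * ortL d (MvPolynomial.monomial m (P.coeff m)) := by
      intro i
      conv_lhs => rw [h3]
      rw [map_sum, map_sum, map_sum]
      exact Finset.sum_congr rfl fun m _ => ortL_lap d m _ i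
    rw [map_sum, Finset.sum_congr rfl fun i _ => h5 i, Finset.sum_comm, h4, Finset.mul_sum]
    refine Finset.sum_congr rfl fun m hm => ?_
    rw [← Finset.sum_mul]
    congr 1
    have := (hP m hm).1
    exact_mod_cast this
  rw [h2] at h1
  have h6 : (a : ℂ) ≠ 0 := by
    have : a ≠ 0 := by omega
    exact_mod_cast this
  exact (mul_eq_zero.1 h1).resolve_left h6

lemma ort_ev2_eq {n : ℕ} (P : MvPolynomial (Fin n ⊕ Fin n) ℂ) (z : E n) :
    ev2 P z = ∑ m ∈ P.support, P.coeff m *
      ((∏ i, (z i) ^ m (Sum.inl i)) * ∏ i, conj (z i) ^ m (Sum.inr i)) := by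
  unfold ev2
  rw [MvPolynomial.eval_eq']
  refine Finset.sum_congr rfl fun m _ => ?_
  rw [Fintype.prod_sum_type]
  simp only [Sum.elim_inl, Sum.elim_inr]

theorem ort (h : T_MOM) : T_ORT := by
  intro n σ hσ a b ha hb P hP hH F
  have hprob := hσ.prob
  obtain ⟨c, hc⟩ := h n σ hσ
  have h1 : ∀ z : S n, ev2 P z * ev F z = ∑ d ∈ F.support, ∑ m ∈ P.support,
      (F.coeff d * P.coeff m) * ((∏ i, ((z : E n) i) ^ (m (Sum.inl i) + d i)) *
        ∏ i, conj ((z : E n) i) ^ m (Sum.inr i)) := by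
    intro z
    rw [ort_ev2_eq, ev_eq, Finset.sum_mul_sum, Finset.sum_comm]
    refine Finset.sum_congr rfl fun d _ => Finset.sum_congr rfl fun m _ => ?_
    simp only [pow_add, Finset.prod_mul_distrib]
    ring
  have hcont : ∀ (d : Fin n →₀ ℕ) (m : (Fin n ⊕ Fin n) →₀ ℕ), Continuous fun z : S n =>
      (F.coeff d * P.coeff m) * ((∏ i, ((z : E n) i) ^ (m (Sum.inl i) + d i)) *
        ∏ i, conj ((z : E n) i) ^ m (Sum.inr i)) := by
    intro d m
    have hz : ∀ i, Continuous fun z : S n => (z : E n) i := fun i =>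
      (by fun_prop : Continuous fun z : E n => z i).comp continuous_subtype_val
    exact continuous_const.mul ((continuous_finsetProd _ fun i _ => (hz i).pow _).mul
      (continuous_finsetProd _ fun i _ => (Complex.continuous_conj.comp (hz i)).pow _))
  simp only [h1]
  rw [integral_finsetSum _ fun d _ => integrable_finsetSum _ fun m _ => integrable_cont σ (hcont d m)]
  refine Finset.sum_eq_zero fun d _ => ?_
  rw [integral_finsetSum _ fun m _ => integrable_cont σ (hcont d m)]
  have h2 : ∀ m ∈ P.support, ∫ z : S n, (F.coeff d * P.coeff m) *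
      ((∏ i, ((z : E n) i) ^ (m (Sum.inl i) + d i)) *
        ∏ i, conj ((z : E n) i) ^ m (Sum.inr i)) ∂σ =
      (F.coeff d * c b) * ortL (fun i => d i) (MvPolynomial.monomial m (P.coeff m)) := by
    intro m hm
    rw [integral_const_mul, hc (fun i => m (Sum.inl i) + d i) (fun i => m (Sum.inr i)),
      ortL_monomial, ortW]
    split_ifs with h3
    · have h4 : ∑ i, (m (Sum.inl i) + d i) = b := by
        rw [← (hP m hm).2]
        exact Finset.sum_congr rfl fun i _ => congrFun h3 i
      rw [h4]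
      have h5 : (∏ i, (((m (Sum.inl i) + d i).factorial : ℕ) : ℂ)) =
          ∏ i, ((m (Sum.inr i)).factorial : ℂ) :=
        Finset.prod_congr rfl fun i _ => by rw [show m (Sum.inl i) + d i = m (Sum.inr i) from congrFun h3 i]
      rw [h5]
      ring
    · ring
  rw [Finset.sum_congr rfl h2, ← Finset.mul_sum, ← map_sum, MvPolynomial.support_sum_monomial_coeff,
    ortL_eq_zero ha hP hH, mul_zero]

/-! ## The conjugate -/

/-- the conjugate polynomial -/
noncomputable def cjP {n : ℕ} (P : MvPolynomial (Fin n ⊕ Fin n) ℂ) :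
    MvPolynomial (Fin n ⊕ Fin n) ℂ :=
  MvPolynomial.rename (Equiv.sumComm (Fin n) (Fin n)) (MvPolynomial.map (starRingEnd ℂ) P)

lemma ev2_cjP {n : ℕ} (P : MvPolynomial (Fin n ⊕ Fin n) ℂ) (z : E n) :
    ev2 (cjP P) z = conj (ev2 P z) := by
  unfold ev2 cjP
  rw [MvPolynomial.eval_rename, MvPolynomial.eval_map]
  rw [MvPolynomial.eval_eq', MvPolynomial.eval₂_eq', map_sum]
  refine Finset.sum_congr rfl fun m _ => ?_
  rw [map_mul, map_prod]
  congr 1
  refine Finset.prod_congr rfl fun i _ => ?_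
  rw [map_pow]
  rcases i with i | i <;> simp

lemma pderiv_cjP {n : ℕ} (P : MvPolynomial (Fin n ⊕ Fin n) ℂ) (i : Fin n ⊕ Fin n) :
    MvPolynomial.pderiv i (cjP P) =
      cjP (MvPolynomial.pderiv (Equiv.sumComm (Fin n) (Fin n) i) P) := by
  unfold cjP
  have h1 : i = Equiv.sumComm (Fin n) (Fin n) (Equiv.sumComm (Fin n) (Fin n) i) := by
    rcases i with i | i <;> rfl
  conv_lhs => rw [h1]
  rw [MvPolynomial.pderiv_rename (Equiv.injective _), MvPolynomial.pderiv_map]

lemma ort_pd_comm {τ : Type} (i j : τ) (p : MvPolynomial τ ℂ) :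
    MvPolynomial.pderiv i (MvPolynomial.pderiv j p) =
      MvPolynomial.pderiv j (MvPolynomial.pderiv i p) := by
  classical
  have h0 : ∀ a b k : τ, MvPolynomial.pderiv a (MvPolynomial.pderiv b
      (MvPolynomial.X k : MvPolynomial τ ℂ)) = 0 := by
    intro a b k
    by_cases hb : k = b
    · subst hb
      rw [MvPolynomial.pderiv_X_self]
      exact (MvPolynomial.pderiv a).map_one_eq_zero
    · rw [MvPolynomial.pderiv_X_of_ne hb, map_zero]
  have h : ⁅(MvPolynomial.pderiv i : Derivation ℂ (MvPolynomial τ ℂ) (MvPolynomial τ ℂ)),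
      (MvPolynomial.pderiv j : Derivation ℂ (MvPolynomial τ ℂ) (MvPolynomial τ ℂ))⁆ = 0 := by
    refine MvPolynomial.derivation_ext fun k => ?_
    rw [Derivation.commutator_apply, h0, h0]
    simp
  have h2 := congrArg (fun D : Derivation ℂ (MvPolynomial τ ℂ) (MvPolynomial τ ℂ) => D p) h
  simp only [Derivation.commutator_apply] at h2
  exact sub_eq_zero.1 h2

lemma harm_cjP {n : ℕ} {P : MvPolynomial (Fin n ⊕ Fin n) ℂ} (hP : Harm P) : Harm (cjP P) := by
  unfold Harm at hP ⊢
  have h1 : ∀ i, MvPolynomial.pderiv (Sum.inl i) (MvPolynomial.pderiv (Sum.inr i) (cjP P)) =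
      cjP (MvPolynomial.pderiv (Sum.inl i) (MvPolynomial.pderiv (Sum.inr i) P)) := by
    intro i
    rw [pderiv_cjP, pderiv_cjP, ort_pd_comm (Sum.inl i) (Sum.inr i) P]
    rfl
  rw [Finset.sum_congr rfl fun i _ => h1 i]
  unfold cjP
  rw [← map_sum, ← map_sum, hP, map_zero, map_zero]

lemma biHom_cjP {n a b : ℕ} {P : MvPolynomial (Fin n ⊕ Fin n) ℂ} (hP : BiHom P a b) :
    BiHom (cjP P) b a := by
  classical
  intro m hm
  unfold cjP at hm
  rw [MvPolynomial.support_rename_of_injective (Equiv.injective _)] at hm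
  obtain ⟨m', hm', rfl⟩ := Finset.mem_image.1 hm
  have h1 : m' ∈ P.support := MvPolynomial.support_map_subset _ _ hm'
  have h2 := hP m' h1
  refine ⟨?_, ?_⟩
  · rw [← h2.2]
    refine Finset.sum_congr rfl fun i _ => ?_
    have : (Sum.inl i : Fin n ⊕ Fin n) = Equiv.sumComm (Fin n) (Fin n) (Sum.inr i) := rfl
    rw [this, Finsupp.mapDomain_apply (Equiv.injective _)]
  · rw [← h2.1]
    refine Finset.sum_congr rfl fun i _ => ?_
    have : (Sum.inr i : Fin n ⊕ Fin n) = Equiv.sumComm (Fin n) (Fin n) (Sum.inl i) := rfl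
    rw [this, Finsupp.mapDomain_apply (Equiv.injective _)]

theorem orc (h : T_ORT) : T_ORC := by
  intro n σ hσ a b ha hb P hP hH F
  have h1 := h n σ hσ b a hb ha (cjP P) (biHom_cjP hP) (harm_cjP hH) F
  have h2 : ∫ z : S n, ev2 P z * conj (ev F z) ∂σ =
      ∫ z : S n, conj (ev2 (cjP P) z * ev F z) ∂σ := by
    refine integral_congr_ae (Filter.Eventually.of_forall fun z => ?_)
    simp only [ev2_cjP, map_mul, Complex.conj_conj]
  rw [h2, integral_conj, h1, map_zero]

end Pool.Agent.H3.PK
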